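import Pool.Agent.R15.OC.Rel

/-!
# Towers of relative free side tests and local indicability

The 2-complex with one vertex, the 1-cells `x : X`, the 2-cells `r : R` and the attaching words
`att r : List (X × Bool)` (`(x, true)` is the letter `x`, `(x, false)` the letter `x⁻¹`).

Definitions (`Pool.Agent.R15.OC`):

* `SubGrp att Y Q`: the fundamental group of the subcomplex with the 1-cells `Y` and the 2-cells
  `Q` (the group with the generators `X` and the relators `att r`, `r ∈ Q`, in which the generators
  outside `Y` are killed);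
* `occ ρ a l`: the 1-cells `(x, b)` (from `b` to `b ρ(x)`) of the covering belonging to `ρ` through
  which the path of the word `l` passes which starts at `a`;
* `FreeSidesRel ρ att Y Q₁`: every nonempty finite set of 2-cells `(r, a)`, `r ∈ Q₁`, of the
  covering has a 1-cell `(x, b)`, `x ∉ Y`, through which one of the 2-cells passes exactly once and
  the others do not pass;
* `Stage att hX hR α`: there is a homomorphism `ρ` to a locally indicable group which kills the
  relators of the stages `≤ α` and satisfies `FreeSidesRel` for the 2-cells of the stage `α`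
  relative to the 1-cells of the stages `< α`;
* `OrderTest ρ att Y Q₁`: the ordered test (weights and extremal corners) relative to `Y`;
* `Peel f g hV hE α`: every nonempty finite set of edges `e` of the stage `α` has a vertex of the
  stage `α` which occurs exactly once among the vertices `f e`, `g e`;
* from the starting library `Pool.Agent.TH625.LOG`: `LocInd` (locally indicable), `LOG` (labelled
  oriented graph), `LOG.Conn` (connected), `LOG.ContractibleWith v₀` (the complex with one
  additional 2-cell attached along `v₀` is contractible); `latt L` are the attaching words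
  `ini lab ter⁻¹ lab⁻¹`.
-/

set_option autoImplicit false

namespace Pool.Agent.Results.MP_cf50d6_gt.FreeSideTowers

open Pool.Agent.TH625.LOG Pool.Agent.R15.OC

/-- (1) The relative theorem: `K` is a 2-complex with one vertex, `K₀` the subcomplex with the
1-cells `Y` and the 2-cells `Q₀`, and the other 2-cells `Q₁` satisfy the relative free side
condition over a quotient `A` of `π₁(K)`.  Then `π₁(K₀) → π₁(K)` is injective, and `π₁(K)` is
locally indicable if `π₁(K₀)` and `A` are locally indicable.
(2) Towers: the cells of `K` are distributed over the stages `α : ι` (`ι` well ordered) such that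
the 2-cells of a stage pass only through 1-cells of this stage and of earlier stages, and every
stage satisfies the relative free side condition over some locally indicable group.  Then all
subcomplexes of `K` have locally indicable fundamental groups, and their parts up to the stage `α`
are `π₁`-injective.
(3) The ordered test implies the free side condition.
(4) For labelled oriented graphs the peeling condition implies the condition for one stage.
(5) A labelled oriented tree with a tower: the complex lies in a contractible one and all its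
subcomplexes have locally indicable fundamental groups. -/
theorem result :
    (∀ (X R A : Type) [Group A] (att : R → List (X × Bool)) (Y : Set X) (Q₀ Q₁ : Set R)
      (ρ : FreeGroup X →* A), (∀ r ∈ Q₀, ∀ p ∈ att r, p.1 ∈ Y) →
      (∀ r ∈ Q₀ ∪ Q₁, ρ (FreeGroup.mk (att r)) = 1) → FreeSidesRel ρ att Y Q₁ →
      (∀ v ∈ Subgroup.closure (FreeGroup.of '' Y),
        v ∈ Subgroup.normalClosure ((fun r => FreeGroup.mk (att r)) '' (Q₀ ∪ Q₁)) →
        v ∈ Subgroup.normalClosure ((fun r => FreeGroup.mk (att r)) '' Q₀)) ∧
      (LocInd A → LocInd (SubGrp att Y Q₀) → ∀ Y' : Set X, Y ⊆ Y' →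
        (∀ r ∈ Q₁, ∀ p ∈ att r, p.1 ∈ Y') → LocInd (SubGrp att Y' (Q₀ ∪ Q₁)))) ∧
    (∀ (X R ι : Type) [LinearOrder ι] [WellFoundedLT ι] (att : R → List (X × Bool))
      (hX : X → ι) (hR : R → ι), (∀ r, ∀ p ∈ att r, hX p.1 ≤ hR r) →
      (∀ α, Stage att hX hR α) →
      (∀ (Y : Set X) (Q : Set R), (∀ r ∈ Q, ∀ p ∈ att r, p.1 ∈ Y) → LocInd (SubGrp att Y Q)) ∧
      (∀ (Q : Set R) (α : ι) (v : FreeGroup X),
        v ∈ Subgroup.closure (FreeGroup.of '' {x | hX x ≤ α}) →
        v ∈ Subgroup.normalClosure ((fun r => FreeGroup.mk (att r)) '' Q) →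
        v ∈ Subgroup.normalClosure ((fun r => FreeGroup.mk (att r)) '' (Q ∩ {r | hR r ≤ α})))) ∧
    (∀ (X R A : Type) [Group A] (ρ : FreeGroup X →* A) (att : R → List (X × Bool))
      (Y : Set X) (Q₁ : Set R), OrderTest ρ att Y Q₁ → FreeSidesRel ρ att Y Q₁) ∧
    (∀ (V E ι : Type) [LinearOrder ι] (L : LOG V E) (hV : V → ι) (hE : E → ι) (α : ι),
      Peel L.lab L.ter hV hE α ∨ Peel L.lab L.ini hV hE α → Stage (latt L) hV hE α) ∧
    (∀ (V E ι : Type) [Fintype V] [DecidableEq V] [Fintype E] [LinearOrder ι] [WellFoundedLT ι]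
      (L : LOG V E) (hV : V → ι) (hE : E → ι),
      (∀ e, hV (L.ini e) ≤ hE e ∧ hV (L.lab e) ≤ hE e ∧ hV (L.ter e) ≤ hE e) →
      (∀ α, Stage (latt L) hV hE α) → L.Conn → Fintype.card V = Fintype.card E + 1 →
      (∀ v₀ : V, L.ContractibleWith v₀) ∧
      (∀ (Y : Set V) (Q : Set E), (∀ e ∈ Q, L.ini e ∈ Y ∧ L.lab e ∈ Y ∧ L.ter e ∈ Y) →
        LocInd (SubGrp (latt L) Y Q))) := by
  have h1 : ∀ (X R ι : Type) [LinearOrder ι] [WellFoundedLT ι] (att : R → List (X × Bool))
      (hX : X → ι) (hR : R → ι), (∀ r, ∀ p ∈ att r, hX p.1 ≤ hR r) →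
      (∀ α, Stage att hX hR α) →
      (∀ (Y : Set X) (Q : Set R), (∀ r ∈ Q, ∀ p ∈ att r, p.1 ∈ Y) → LocInd (SubGrp att Y Q)) ∧
      (∀ (Q : Set R) (α : ι) (v : FreeGroup X),
        v ∈ Subgroup.closure (FreeGroup.of '' {x | hX x ≤ α}) →
        v ∈ Subgroup.normalClosure ((fun r => FreeGroup.mk (att r)) '' Q) →
        v ∈ Subgroup.normalClosure
          ((fun r => FreeGroup.mk (att r)) '' (Q ∩ {r | hR r ≤ α}))) := by
    intro X R ι _ _ att hX hR hle hst
    exact ⟨fun Y Q hQ => subGrp_li att Y Q hQ (tower_li att hX hR hle hst Q),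
      fun Q α v hv hv' => tower_frei att hX hR hle hst Q α v hv hv'⟩
  refine ⟨fun X R A _ att Y Q₀ Q₁ ρ hQ₀ hρ hfree =>
      ⟨fun v hv hv' => step_inj att Y Q₀ Q₁ hQ₀ ρ hρ hfree v hv hv',
        fun hA h₀ Y' hY hQ₁ => rel_li att Y Q₀ Q₁ hQ₀ h₀ hA ρ hρ hfree Y' hY hQ₁⟩,
    h1, fun X R A _ ρ att Y Q₁ h => h.freeSides,
    fun V E ι _ L hV hE α h => stage_log L hV hE α h, ?_⟩
  intro V E ι _ _ _ _ _ L hV hE hle hst hc hcard
  refine ⟨contractibleWith L hc hcard, ?_⟩
  intro Y Q hQ
  refine (h1 V E ι (latt L) hV hE ?_ hst).1 Y Q ?_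
  · intro e p hp
    simp only [latt, List.mem_cons, List.not_mem_nil, or_false] at hp
    rcases hp with rfl | rfl | rfl | rfl
    · exact (hle e).1
    · exact (hle e).2.1
    · exact (hle e).2.2
    · exact (hle e).2.1
  · intro e he p hp
    simp only [latt, List.mem_cons, List.not_mem_nil, or_false] at hp
    rcases hp with rfl | rfl | rfl | rfl
    · exact (hQ e he).1
    · exact (hQ e he).2.1
    · exact (hQ e he).2.2
    · exact (hQ e he).2.1

end Pool.Agent.Results.MP_cf50d6_gt.FreeSideTowers
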