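import Pool.Agent.R655.LI.Main

/-!
# Q1 reduced to one 2-cell and to nontrivial quotients of perfect commutator subgroups

Definitions (`Pool.Agent.R655.LI.Defs`):

* `Cx`: a 2-complex with one vertex, 1-cells `V`, 2-cells `R`, attaching words `r : R → FreeGroup V`
  (no finiteness assumption); `L.Pi` its fundamental group; `L.bdry : ℤ[R] → ℤ[V]` the cellular
  boundary operator; `L.Contractible`: `π₁(L) = 1` and `L.bdry` is injective (`H₂(L) = 0`);
  `L.IsFin`: finitely many cells;
* `Sub K L`: `K` is a subcomplex of `L`; `s.map` the homomorphism `π₁(K) → π₁(L)` of the inclusion;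
  `L.del e` is `L` without the open 2-cell `e`;
* `LocInd G`: every nontrivial finitely generated subgroup of `G` maps onto `ℤ`;
* `Question P`: for all contractible `L` with `P L` and all subcomplexes `K` of `L` the group `π₁(K)`
  is locally indicable (Q1 for one-vertex complexes);
* `OneCell L e`: `L` is contractible, `e` is attached along a 1-cell; `NN L e`: the commutator
  subgroup of `π₁(L - e)`; `Perf`: perfect; `NGen N h`: `N` is the normal closure of `h`; `HasHom N`:
  `N` has a nontrivial homomorphism to a locally indicable group;
* `Thm K L F`: the embedding property stated below;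
* `Reduced P`: for all contractible `L` with `P L` and all 2-cells `e` of `L` attached along a 1-cell:
  if the commutator subgroup `N` of `π₁(L - e)` is perfect, nontrivial and the normal closure of one
  element, then `N` has a nontrivial homomorphism to a locally indicable group.

(A connected subcomplex of a contractible 2-complex becomes a one-vertex subcomplex of a one-vertex
contractible 2-complex, with the same fundamental group, when a maximal tree is collapsed.)
-/

set_option autoImplicit false

namespace Pool.Agent.Results.MP_cf50d6_gt.PerfectReduction

open Pool.Agent.R655.LI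

/-- Let `K` be a subcomplex of a contractible 2-complex `L` and `F` a finite set of nontrivial
elements of `π₁(K)`.  Then `K` is a subcomplex of `L' - e` for a contractible 2-complex `L'` (finite if
`L` is) and a 2-cell `e` of `L'` attached along a 1-cell, such that `π₁(K)` embeds in `π₁(L' - e)`, the
commutator subgroup `N` of `π₁(L' - e)` is perfect, and `N` is the normal closure of each `h ∈ F`.
Hence Q1 (for all `L`, and for finite `L`) is equivalent to the reduced question. -/
theorem result :
    (∀ (K L : Cx) (_ : Sub K L), L.Contractible → ∀ F : Set K.Pi, F.Finite → (1 : K.Pi) ∉ F →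
      Thm K L F) ∧
    (Question (fun _ => True) ↔ Reduced (fun _ => True)) ∧
    (Question Cx.IsFin ↔ Reduced Cx.IsFin) := by
  refine ⟨?_, equiv _ (fun _ _ _ h => h), equiv _ (fun _ _ h => h)⟩
  intro K L i hL F hF h1
  obtain ⟨L', t, e, s, ⟨g1, g2, g3, g4, g5, g6⟩, hN⟩ := finite_set K L i hL F hF h1
  exact ⟨L', e, s, ⟨g1, t, g2⟩, g3, ⟨g4, g5⟩, g6, hN⟩

end Pool.Agent.Results.MP_cf50d6_gt.PerfectReduction
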